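import Mathlib
import Pool.Agent.H17.Alpha2

namespace Pool.Agent.Results.MP_5ffaeb_an.NormAttaining

open Pool.Agent.H17.Alpha MeasureTheory

lemma exists_space (K : Type) [RCLike K] :
    ∃ (E H : Type) (_ : NormedAddCommGroup E) (_ : NormedSpace K E) (_ : CompleteSpace E)
      (_ : NormedAddCommGroup H) (_ : InnerProductSpace K H) (_ : CompleteSpace H)
      (D : E →L[K] H) (x0 : E), ‖x0‖ = 1 ∧ Function.Injective D ∧
      ∀ u : E, ‖u‖ = 1 → ∃ z, z ≠ 0 ∧ ‖u + z‖ ≤ 1 ∧ ‖u - z‖ ≤ 1 := by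
  have : Fact ((0 : ℝ) < 1) := ⟨one_pos⟩
  let C := AddCircle (1 : ℝ)
  let ev : C(C, K) →L[K] K := ContinuousMap.evalCLM K (0 : C)
  let E : Submodule K C(C, K) := ev.ker
  have hE : IsClosed (E : Set C(C, K)) := ev.isClosed_ker
  have hmem : ∀ u : C(C, K), u ∈ E ↔ u 0 = 0 := fun u => Iff.rfl
  have key : ∀ u : E, ‖u‖ ≤ 1 → ∃ z : E, z ≠ 0 ∧ ‖u + z‖ ≤ 1 ∧ ‖u - z‖ ≤ 1 := by
    intro u hu
    have hu1 : ∀ t, ‖u.1 t‖ ≤ 1 := fun t => (u.1.norm_coe_le_norm t).trans hu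
    have ht1 : ∀ t : C, ‖t‖ ≤ 1 := fun t => by
      have := AddCircle.norm_le_half_period (1 : ℝ) (x := t) one_ne_zero
      norm_num at this
      linarith
    let z : C(C, K) := ⟨fun t => ((‖t‖ * (1 - ‖u.1 t‖) : ℝ) : K), by fun_prop⟩
    have hz : ∀ t, ‖z t‖ ≤ 1 - ‖u.1 t‖ := fun t => by
      have h1 := hu1 t
      have h2 := ht1 t
      show ‖((‖t‖ * (1 - ‖u.1 t‖) : ℝ) : K)‖ ≤ _
      rw [RCLike.norm_ofReal, abs_of_nonneg (mul_nonneg (norm_nonneg _) (by linarith))]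
      nlinarith [norm_nonneg t]
    refine ⟨⟨z, (hmem z).2 (by simp [z])⟩, fun h0 => ?_, ?_, ?_⟩
    · have h1 : ∀ t : C, t ≠ 0 → ‖u.1 t‖ = 1 := fun t ht => by
        have h2 : z t = 0 := by
          have := congrArg (fun w : E => w.1 t) h0
          simpa using this
        have h3 : ‖t‖ * (1 - ‖u.1 t‖) = 0 := by
          have : ((‖t‖ * (1 - ‖u.1 t‖) : ℝ) : K) = 0 := h2
          exact_mod_cast this
        rcases mul_eq_zero.1 h3 with h | h
        · exact absurd (norm_eq_zero.1 h) ht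
        · linarith
      have hnt : Nontrivial C := by
        refine ⟨⟨((1 / 2 : ℝ) : C), 0, fun h => ?_⟩⟩
        have := AddCircle.norm_half_period_eq (1 : ℝ)
        rw [show ((1 / 2 : ℝ) : AddCircle (1 : ℝ)) = 0 from h] at this
        norm_num at this
      have h4 := Continuous.ext_on (dense_compl_singleton (0 : C))
        (f := fun t => ‖u.1 t‖) (g := fun _ => (1 : ℝ)) (by fun_prop) continuous_const
        (fun t ht => h1 t ht)
      have h5 := congrFun h4 0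
      rw [(hmem _).1 u.2] at h5
      simp at h5
    · show ‖u.1 + z‖ ≤ 1
      rw [ContinuousMap.norm_le _ zero_le_one]
      intro t
      have := norm_add_le (u.1 t) (z t)
      have := hz t
      rw [ContinuousMap.add_apply]; linarith
    · show ‖u.1 - z‖ ≤ 1
      rw [ContinuousMap.norm_le _ zero_le_one]
      intro t
      have := norm_sub_le (u.1 t) (z t)
      have := hz t
      rw [ContinuousMap.sub_apply]; linarith
  obtain ⟨z, hz, -, -⟩ := key 0 (by simp)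
  have hz' : ‖z‖ ≠ 0 := norm_ne_zero_iff.2 hz
  refine ⟨E, Lp K 2 (AddCircle.haarAddCircle (T := 1)), inferInstance, inferInstance,
    hE.completeSpace_coe, inferInstance, inferInstance, inferInstance,
    (ContinuousMap.toLp 2 AddCircle.haarAddCircle K) ∘L E.subtypeL, ((‖z‖ : K)⁻¹) • z, ?_, ?_,
    fun u hu => key u hu.le⟩
  · rw [norm_smul, norm_inv, RCLike.norm_ofReal, abs_norm, inv_mul_cancel₀ hz']
  · exact (ContinuousMap.toLp_injective _).comp Subtype.val_injective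

theorem result (K : Type) [RCLike K] :
    ∃ (X Y : Type) (_ : NormedAddCommGroup X) (_ : NormedSpace K X) (_ : CompleteSpace X)
      (_ : NormedAddCommGroup Y) (_ : NormedSpace K Y) (_ : CompleteSpace Y)
      (X₁ : Submodule K X) (P : X →L[K] X),
      IsClosed (X₁ : Set X) ∧ P ∘L P = P ∧ Set.range P = X₁ ∧ ‖P‖ ≤ 1 ∧
      Dense {T : X →L[K] Y | ∃ x : X, ‖x‖ = 1 ∧ ‖T x‖ = ‖T‖} ∧
      ¬ Dense {T : X₁ →L[K] Y | ∃ x : X₁, ‖x‖ = 1 ∧ ‖T x‖ = ‖T‖} := by
  obtain ⟨E, H, _, _, _, _, _, _, D, x0, hx0, hD, hE⟩ := exists_space K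
  obtain ⟨X, _, _, _, P, J, hP, hPn, hJ1, hJ2, hd⟩ := exists_alpha (K := K) E x0 hx0
  let F : WithLp 2 (E × H) →L[K] H := WithLp.sndL 2 K E H - D ∘L WithLp.fstL 2 K E H
  let Y : Submodule K (WithLp 2 (E × H)) := F.ker
  have hY : IsClosed (Y : Set (WithLp 2 (E × H))) := F.isClosed_ker
  have hPP : ∀ x, P (P x) = P x := fun x => congrArg (fun L : X →L[K] X => L x) hP
  let X₁ : Submodule K X := (P - ContinuousLinearMap.id K X).ker
  have hm : ∀ x, x ∈ X₁ ↔ P x = x := fun x => by simp [X₁, sub_eq_zero]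
  have hA : ∀ z : X₁, ‖(J ∘L X₁.subtypeL) z‖ = ‖z‖ := fun z => by
    have := hJ1 z
    rwa [(hm _).1 z.2] at this
  refine ⟨X, Y, inferInstance, inferInstance, inferInstance, inferInstance, inferInstance,
    hY.completeSpace_coe, X₁, P, (P - ContinuousLinearMap.id K X).isClosed_ker, hP, ?_, hPn,
    hd Y, not_dense D hD (J ∘L X₁.subtypeL) hA (fun u hu => ?_) Y (fun y => ?_)⟩
  · ext x
    constructor
    · rintro ⟨y, rfl⟩
      exact (hm _).2 (hPP y)
    · intro hx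
      exact ⟨x, (hm _).1 hx⟩
  · obtain ⟨z, hz, h1, h2⟩ := hE _ ((hA u).trans hu)
    obtain ⟨w, hw⟩ := hJ2 z
    have hw' : (J ∘L X₁.subtypeL) ⟨P w, (hm _).2 (hPP w)⟩ = z := hw
    refine ⟨⟨P w, (hm _).2 (hPP w)⟩, fun h => hz ?_, ?_, ?_⟩
    · rw [← hw', h, map_zero]
    · rw [← hA, map_add, hw']; exact h1
    · rw [← hA, map_sub, hw']; exact h2
  · simp [Y, F, sub_eq_zero]

end Pool.Agent.Results.MP_5ffaeb_an.NormAttaining
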